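import Pool.Agent.J4H20.TP.Stm

/-!
# Project TP: local conditions at primes `q` for `HP` (T2P, T3P)
-/

set_option autoImplicit false

namespace Pool.Agent.J4H48.TP

open Polynomial Pool.Agent.J4H20.TP

/-- for a `p`-th root `y` of `f(x)` modulo `q` with `p y ^ (p - 1) g'(x) ≠ f'(x)`, `s = y - g(x)` works -/
theorem key (p e k : ℕ) (D : DatP p e k) (q : ℕ) [Fact q.Prime] (x : ℤ) (y : ZMod q)
    (hy : ∏ j, ((x - D.a j : ℤ) : ZMod q) = y ^ p)
    (hd : (p : ZMod q) * y ^ (p - 1) * (((derivative D.g).eval x : ℤ) : ZMod q) ≠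
      (((derivative (∏ i, (X - C (D.a i)))).eval x : ℤ) : ZMod q)) :
    ∃ s : ZMod q, ∀ c M : ℤ, ¬ (q : ℤ) ∣ M → (c : ZMod q) = s * (M : ZMod q) →
      (q : ℤ) ∣ (HP p D.g D.r c M).eval x ∧ ¬ (q : ℤ) ∣ (derivative (HP p D.g D.r c M)).eval x := by
  refine ⟨y - ((D.g.eval x : ℤ) : ZMod q), fun c M hM hc => ?_⟩
  have hM0 : (M : ZMod q) ≠ 0 := by
    rwa [Ne, ZMod.intCast_zmod_eq_zero_iff_dvd]
  have hp0 : p - 1 + 1 = p := Nat.succ_pred_eq_of_pos D.hp.pos
  have e1 : (M : ZMod q) * ((D.g.eval x : ℤ) : ZMod q) + (c : ZMod q) = (M : ZMod q) * y := by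
    rw [hc]; ring
  have hf : (((∏ i, (X - C (D.a i))).eval x : ℤ) : ZMod q) = y ^ p := by
    rw [← hy, Polynomial.eval_prod, Int.cast_prod]
    refine Finset.prod_congr rfl fun j _ => ?_
    simp
  constructor
  · rw [← ZMod.intCast_zmod_eq_zero_iff_dvd]
    unfold HP
    rw [← D.hf]
    simp only [Polynomial.eval_sub, Polynomial.eval_mul, Polynomial.eval_pow, Polynomial.eval_add,
      Polynomial.eval_C, Int.cast_sub, Int.cast_mul, Int.cast_pow, Int.cast_add]
    rw [e1, hf]; ring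
  · rw [← ZMod.intCast_zmod_eq_zero_iff_dvd]
    unfold HP
    rw [← D.hf]
    intro h
    rw [derivative_sub, derivative_pow, derivative_add, derivative_mul, derivative_C,
      derivative_mul, derivative_C] at h
    simp only [Polynomial.eval_sub, Polynomial.eval_mul, Polynomial.eval_pow, Polynomial.eval_add,
      Polynomial.eval_C, Int.cast_sub, Int.cast_mul, Int.cast_pow, Int.cast_add, zero_mul, zero_add,
      add_zero, Int.cast_natCast, derivative_C] at h
    rw [e1] at h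
    apply hd
    have h2 : (M : ZMod q) ^ p * ((p : ZMod q) * y ^ (p - 1) * (((derivative D.g).eval x : ℤ) : ZMod q) -
      (((derivative (∏ i, (X - C (D.a i)))).eval x : ℤ) : ZMod q)) = 0 := by
      rw [← h]
      have : (M : ZMod q) ^ p = (M : ZMod q) ^ (p - 1) * M := by
        rw [← pow_succ, hp0]
      rw [this]; ring
    rcases mul_eq_zero.1 h2 with h3 | h3
    · exact absurd h3 (pow_ne_zero _ hM0)
    · exact sub_eq_zero.1 h3

/-- (T2P) -/
theorem t_T2P : S_T2P := by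
  intro p e k D
  have hp0 : p - 1 + 1 = p := Nat.succ_pred_eq_of_pos D.hp.pos
  obtain ⟨f, hfd⟩ : ∃ f : ℤ[X], f = ∏ i, (X - C (D.a i)) := ⟨_, rfl⟩
  obtain ⟨Q, hQ⟩ : ∃ Q : ℤ[X], Q = C ((p : ℤ) ^ p) * f ^ (p - 1) * (derivative D.g) ^ p -
    (derivative f) ^ p := ⟨_, rfl⟩
  have hf0 : f ≠ 0 := by
    rw [hfd]
    exact Finset.prod_ne_zero_iff.2 fun i _ => X_sub_C_ne_zero _
  have hfa : f.eval (D.a 0) = 0 := by
    rw [hfd, Polynomial.eval_prod]
    exact Finset.prod_eq_zero (Finset.mem_univ 0) (by simp)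
  have hfa' : (derivative f).eval (D.a 0) ≠ 0 := by
    rw [hfd, derivative_prod_finset, Polynomial.eval_finset_sum]
    rw [Finset.sum_eq_single (0 : Fin (k + 2))]
    · simp only [derivative_sub, derivative_X, derivative_C, sub_zero, mul_one,
        Polynomial.eval_prod]
      refine Finset.prod_ne_zero_iff.2 fun i hi => ?_
      simp only [Polynomial.eval_sub, Polynomial.eval_X, Polynomial.eval_C]
      intro h
      exact (Finset.ne_of_mem_erase hi) (D.ha (sub_eq_zero.1 h)).symm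
    · intro b _ hb
      rw [Polynomial.eval_mul, Polynomial.eval_prod]
      rw [Finset.prod_eq_zero (Finset.mem_erase.2 ⟨hb.symm, Finset.mem_univ _⟩) (by simp), zero_mul]
    · intro h; exact absurd (Finset.mem_univ _) h
  have hQ0 : Q ≠ 0 := by
    intro h
    have : Q.eval (D.a 0) = 0 := by rw [h]; simp
    rw [hQ] at this
    have hp1 : p - 1 ≠ 0 := by have := D.hp2; omega
    simp only [Polynomial.eval_sub, Polynomial.eval_mul, Polynomial.eval_pow, hfa, zero_pow hp1,
      mul_zero, zero_mul, zero_sub, neg_eq_zero] at this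
    exact hfa' (pow_eq_zero_iff (D.hp.ne_zero) |>.1 this)
  have hQf : Q * f ≠ 0 := mul_ne_zero hQ0 hf0
  obtain ⟨x, hx⟩ : ∃ x : ℤ, (Q * f).eval x ≠ 0 := by
    by_contra hcon
    push Not at hcon
    exact hQf (Polynomial.funext fun x => by rw [hcon x]; simp)
  refine ⟨x, ((Q * f).eval x).natAbs + p, ?_⟩
  intro q hq hB hnd
  have hqp : q.Prime := hq.out
  have hnd2 : ¬ (q : ℤ) ∣ (Q * f).eval x := by
    intro h
    have := Int.natAbs_le_of_dvd_ne_zero h hx
    simp only [Int.natAbs_natCast] at this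
    omega
  rw [Polynomial.eval_mul] at hnd2
  have hfx : ((f.eval x : ℤ) : ZMod q) ≠ 0 := by
    rw [Ne, ZMod.intCast_zmod_eq_zero_iff_dvd]
    exact fun h => hnd2 (Dvd.dvd.mul_left h _)
  have hQx : ((Q.eval x : ℤ) : ZMod q) ≠ 0 := by
    rw [Ne, ZMod.intCast_zmod_eq_zero_iff_dvd]
    exact fun h => hnd2 (Dvd.dvd.mul_right h _)
  have hcop : (Nat.card (ZMod q)ˣ).Coprime p := by
    rw [Nat.card_eq_fintype_card, ZMod.card_units_eq_totient, Nat.totient_prime hqp]
    exact ((Nat.Prime.coprime_iff_not_dvd D.hp).2 hnd).symm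
  obtain ⟨y, hy⟩ : ∃ y : ZMod q, y ^ p = ((f.eval x : ℤ) : ZMod q) := by
    obtain ⟨u, hu⟩ := (powCoprime hcop).surjective (Units.mk0 _ hfx)
    refine ⟨(u : ZMod q), ?_⟩
    have := congrArg (Units.val) hu
    simpa using this
  have hy' : ∏ j, ((x - D.a j : ℤ) : ZMod q) = y ^ p := by
    rw [hy, hfd, Polynomial.eval_prod, Int.cast_prod]
    refine Finset.prod_congr rfl fun j _ => ?_
    simp
  refine key p e k D q x y hy' ?_
  rw [← hfd]
  intro h
  apply hQx
  rw [hQ]
  simp only [Polynomial.eval_sub, Polynomial.eval_mul, Polynomial.eval_pow, Polynomial.eval_C,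
    Int.cast_sub, Int.cast_mul, Int.cast_pow, Int.cast_natCast]
  rw [← h, ← hy]
  have e3 : (y ^ p) ^ (p - 1) = (y ^ (p - 1)) ^ p := by rw [← pow_mul, ← pow_mul, mul_comm]
  rw [e3]; ring

end Pool.Agent.J4H48.TP
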