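import Pool.Agent.J4H48.TP.T2P

/-!
# Project TP: T3P
-/

set_option autoImplicit false

namespace Pool.Agent.J4H48.TP

open Polynomial Pool.Agent.J4H20.TP

/-- (T3P) -/
theorem t_T3P : S_T3P := by
  intro p e k D
  have hp0 : p - 1 + 1 = p := Nat.succ_pred_eq_of_pos D.hp.pos
  have hp2 := D.hp2
  refine ⟨p, ?_⟩
  intro q hq x hB hpq hne hf' hy
  have hqp : q.Prime := hq.out
  obtain ⟨y, hy⟩ := hy
  have hy0 : y ≠ 0 := by
    rintro rfl
    exact hne (by rw [hy, zero_pow D.hp.ne_zero])
  by_cases h1 : (p : ZMod q) * y ^ (p - 1) * (((derivative D.g).eval x : ℤ) : ZMod q) =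
      (((derivative (∏ i, (X - C (D.a i)))).eval x : ℤ) : ZMod q)
  · -- take `ζ y`
    haveI : Fact p.Prime := ⟨D.hp⟩
    obtain ⟨u, hu⟩ : ∃ u : (ZMod q)ˣ, orderOf u = p := by
      apply exists_prime_orderOf_dvd_card p
      rw [ZMod.card_units_eq_totient, Nat.totient_prime hqp]
      exact hpq
    have hup : (u : ZMod q) ^ p = 1 := by
      rw [← Units.val_pow_eq_pow_val, ← hu, pow_orderOf_eq_one]; rfl
    have hup1 : (u : ZMod q) ^ (p - 1) ≠ 1 := by
      intro h
      have h2 : u ^ (p - 1) = 1 := by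
        apply Units.ext
        rw [Units.val_pow_eq_pow_val, h]; rfl
      have h3 := orderOf_dvd_of_pow_eq_one h2
      rw [hu] at h3
      have := Nat.le_of_dvd (by omega) h3
      omega
    refine key p e k D q x ((u : ZMod q) * y) ?_ ?_
    · rw [hy, mul_pow, hup, one_mul]
    · intro h
      rw [mul_pow] at h
      have h4 : ((u : ZMod q) ^ (p - 1) - 1) *
        (((derivative (∏ i, (X - C (D.a i)))).eval x : ℤ) : ZMod q) = 0 := by
        rw [sub_mul, one_mul, sub_eq_zero]
        conv_lhs => rw [← h1]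
        rw [← h]; ring
      rcases mul_eq_zero.1 h4 with h5 | h5
      · exact hup1 (sub_eq_zero.1 h5)
      · exact hf' h5
  · exact key p e k D q x y hy h1

end Pool.Agent.J4H48.TP
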